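import Pool.Agent.N266.TI.Stm

/-! TI/MV1 (helper833): the mean value identity for a kernel. -/

set_option autoImplicit false

namespace Pool.Agent.N833.TI

open MeasureTheory Metric Set Pool.Agent.N266.TI
open scoped ContDiff

theorem int_ball {n : ℕ} {f w : E n → ℝ} (hw : ∀ z, 1 ≤ ‖z‖ → w z = 0) :
    ∫ z in closedBall (0 : E n) 1, f z * w z = ∫ z, f z * w z := by
  refine setIntegral_eq_integral_of_forall_compl_eq_zero fun z hz => ?_
  rw [mem_closedBall_zero_iff, not_le] at hz
  rw [hw z hz.le, mul_zero]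

theorem int_cs {n : ℕ} {f w : E n → ℝ} (hf : Continuous f) (hwc : Continuous w)
    (hw : ∀ z, 1 ≤ ‖z‖ → w z = 0) : Integrable (fun z => f z * w z) := by
  refine (hf.mul hwc).integrable_of_hasCompactSupport ?_
  refine HasCompactSupport.intro (isCompact_closedBall (0 : E n) 1) fun z hz => ?_
  rw [mem_closedBall_zero_iff, not_le] at hz
  show f z * w z = 0
  rw [hw z hz.le, mul_zero]

theorem fd_lin {n : ℕ} (L : E n →L[ℝ] ℝ) (z : E n) : L z = ∑ i, z i * L (e i) := by
  have h : z = ∑ i, z i • (e i : E n) := by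
    ext j
    simp [Pi.single_apply]
  conv_lhs => rw [h]
  rw [map_sum]
  exact Finset.sum_congr rfl fun i _ => by rw [map_smul, smul_eq_mul]

variable {n : ℕ} {v : E n → ℝ}

theorem aff_cont (x : E n) (r : ℝ) : Continuous (fun q : ℝ × E n => x - (q.1 * r) • q.2) := by
  fun_prop

theorem pd_C1 (hv : ContDiff ℝ 2 v) (i : Fin n) : ContDiff ℝ 1 (fun y => fderiv ℝ v y (e i)) :=
  (hv.fderiv_right (m := 1) (by norm_num)).clm_apply contDiff_const

theorem lap_cont (hv : ContDiff ℝ 2 v) : Continuous (lap v) := by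
  unfold lap
  refine continuous_finsetSum _ fun i _ => ?_
  exact ((pd_C1 hv i).continuous_fderiv (by norm_num)).clm_apply continuous_const

/-- derivative of `t ↦ v (x - t r z)` -/
theorem dvt (hv : ContDiff ℝ 2 v) (x z : E n) (r t : ℝ) :
    HasDerivAt (fun t : ℝ => v (x - (t * r) • z)) (fderiv ℝ v (x - (t * r) • z) (-(r • z))) t := by
  have h1 : HasDerivAt (fun t : ℝ => x - (t * r) • z) (-(r • z)) t := by
    have h2 : HasDerivAt (fun t : ℝ => (t * r) • z) (r • z) t := by
      have h3 : HasDerivAt (fun t : ℝ => t * r) r t := by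
        simpa using (hasDerivAt_id t).mul_const r
      exact h3.smul_const z
    exact h2.const_sub x
  exact ((hv.differentiable (by norm_num)) _).hasFDerivAt.comp_hasDerivAt t h1

/-- derivative of `z ↦ ∂_i v (x - s z)` -/
theorem dvz (hv : ContDiff ℝ 2 v) (x z : E n) (s : ℝ) (i : Fin n) :
    fderiv ℝ (fun z => fderiv ℝ v (x - s • z) (e i)) z (e i) =
      -s * fderiv ℝ (fun y => fderiv ℝ v y (e i)) (x - s • z) (e i) := by
  have h1 : HasFDerivAt (fun z : E n => x - s • z) (-(s • ContinuousLinearMap.id ℝ (E n))) z :=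
    ((hasFDerivAt_id z).const_smul s).const_sub x
  have h2 := (((pd_C1 hv i).differentiable (by norm_num)) (x - s • z)).hasFDerivAt
  have h3 := (h2.comp z h1).fderiv
  have h4 : fderiv ℝ (fun z => fderiv ℝ v (x - s • z) (e i)) z =
      (fderiv ℝ (fun y => fderiv ℝ v y (e i)) (x - s • z)).comp
        (-(s • ContinuousLinearMap.id ℝ (E n))) := h3
  rw [h4]
  simp

variable {σ T : E n → ℝ}

theorem der_int (hv : ContDiff ℝ 2 v) (hσ : Continuous σ) (x : E n) (r t : ℝ) :
    HasDerivAt (fun t : ℝ => ∫ z in closedBall (0 : E n) 1, v (x - (t * r) • z) * σ z)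
      (∫ z in closedBall (0 : E n) 1, fderiv ℝ v (x - (t * r) • z) (-(r • z)) * σ z) t := by
  have hc : Continuous (fun q : ℝ × E n =>
      fderiv ℝ v (x - (q.1 * r) • q.2) (-(r • q.2)) * σ q.2) := by
    have h1 : Continuous (fun q : ℝ × E n => fderiv ℝ v (x - (q.1 * r) • q.2)) :=
      (hv.continuous_fderiv (by norm_num)).comp (aff_cont x r)
    exact (h1.clm_apply (by fun_prop)).mul (hσ.comp continuous_snd)
  have hc2 : ∀ s : ℝ, Continuous (fun z : E n => v (x - (s * r) • z) * σ z) := by
    intro s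
    exact (hv.continuous.comp (by fun_prop)).mul hσ
  obtain ⟨C, hC⟩ := ((isCompact_Icc (a := t - 1) (b := t + 1)).prod
    (isCompact_closedBall (0 : E n) 1)).exists_bound_of_continuousOn hc.continuousOn
  have hfin : IsFiniteMeasure (volume.restrict (closedBall (0 : E n) 1)) :=
    ⟨by rw [Measure.restrict_apply_univ]; exact measure_closedBall_lt_top⟩
  refine (hasDerivAt_integral_of_dominated_loc_of_deriv_le (s := Icc (t - 1) (t + 1))
    (F := fun t z => v (x - (t * r) • z) * σ z)
    (F' := fun t z => fderiv ℝ v (x - (t * r) • z) (-(r • z)) * σ z) (bound := fun _ => C)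
    (Icc_mem_nhds (by linarith) (by linarith)) ?_ ?_ ?_ ?_ ?_ ?_).2
  · exact Filter.Eventually.of_forall fun s => (hc2 s).aestronglyMeasurable
  · exact (hc2 t).continuousOn.integrableOn_compact (isCompact_closedBall _ _)
  · exact (hc.comp (continuous_const.prodMk continuous_id)).aestronglyMeasurable
  · refine (ae_restrict_iff' measurableSet_closedBall).2 (Filter.Eventually.of_forall ?_)
    intro z hz s hs
    exact hC (s, z) ⟨hs, hz⟩
  · exact integrable_const C
  · exact Filter.Eventually.of_forall fun z s _ => (dvt hv x z r s).mul_const (σ z)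

theorem der_val (hv : ContDiff ℝ 2 v) (hσ : Continuous σ) (hT : ContDiff ℝ 1 T)
    (hσ0 : ∀ z, 1 ≤ ‖z‖ → σ z = 0) (hT0 : ∀ z, 1 ≤ ‖z‖ → T z = 0)
    (hT' : ∀ z i, fderiv ℝ T z (e i) = -(z i * σ z)) (x : E n) (r t : ℝ) :
    ∫ z in closedBall (0 : E n) 1, fderiv ℝ v (x - (t * r) • z) (-(r • z)) * σ z =
      r ^ 2 * (t * ∫ z, lap v (x - (t * r) • z) * T z) := by
  rw [int_ball hσ0]
  have hT0' : ∀ i z, 1 ≤ ‖z‖ → fderiv ℝ T z (e i) = 0 := by
    intro i z hz
    rw [hT', hσ0 z hz, mul_zero, neg_zero]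
  have hTc' : ∀ i, Continuous (fun z => fderiv ℝ T z (e i)) := fun i =>
    (hT.continuous_fderiv (by norm_num)).clm_apply continuous_const
  have haff : Continuous (fun z : E n => x - (t * r) • z) := by fun_prop
  have hfi : ∀ i, Continuous (fun z : E n => fderiv ℝ v (x - (t * r) • z) (e i)) := fun i =>
    (pd_C1 hv i).continuous.comp haff
  have hfid : ∀ i, Differentiable ℝ (fun z : E n => fderiv ℝ v (x - (t * r) • z) (e i)) := by
    intro i
    have h1 : Differentiable ℝ (fun z : E n => x - (t * r) • z) := by fun_prop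
    exact ((pd_C1 hv i).differentiable (by norm_num)).comp h1
  have hffi : ∀ i, Continuous (fun z : E n =>
      fderiv ℝ (fun y => fderiv ℝ v y (e i)) (x - (t * r) • z) (e i)) := fun i =>
    (((pd_C1 hv i).continuous_fderiv (by norm_num)).clm_apply continuous_const).comp haff
  have e1 : ∀ z : E n, fderiv ℝ v (x - (t * r) • z) (-(r • z)) * σ z =
      ∑ i, r * (fderiv ℝ v (x - (t * r) • z) (e i) * fderiv ℝ T z (e i)) := by
    intro z
    rw [map_neg, map_smul, fd_lin, smul_eq_mul, ← neg_mul, Finset.mul_sum, Finset.sum_mul]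
    refine Finset.sum_congr rfl fun i _ => ?_
    rw [hT']
    ring
  have e2 : ∀ i, ∫ z, fderiv ℝ v (x - (t * r) • z) (e i) * fderiv ℝ T z (e i) =
      (t * r) * ∫ z, fderiv ℝ (fun y => fderiv ℝ v y (e i)) (x - (t * r) • z) (e i) * T z := by
    intro i
    have h1 := integral_mul_fderiv_eq_neg_fderiv_mul_of_integrable (μ := volume)
      (f := fun z : E n => fderiv ℝ v (x - (t * r) • z) (e i)) (g := T) (v := e i) ?_ ?_ ?_
      (fun z _ => hfid i z) (fun z _ => hT.differentiable (by norm_num) z)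
    · rw [h1, ← integral_neg, ← integral_const_mul]
      congr 1
      funext z
      rw [dvz hv]
      ring
    · have h2 : (fun z : E n => fderiv ℝ (fun z => fderiv ℝ v (x - (t * r) • z) (e i)) z (e i) *
          T z) = fun z => (-(t * r) * fderiv ℝ (fun y => fderiv ℝ v y (e i))
            (x - (t * r) • z) (e i)) * T z := by
        funext z
        rw [dvz hv]
      rw [h2]
      exact int_cs ((hffi i).const_mul _) hT.continuous hT0
    · exact int_cs (hfi i) (hTc' i) (hT0' i)
    · exact int_cs (hfi i) hT.continuous hT0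
  simp only [e1]
  rw [integral_finsetSum _ fun i _ => (int_cs (hfi i) (hTc' i) (hT0' i)).const_mul r]
  have e3 : ∀ i, ∫ z, r * (fderiv ℝ v (x - (t * r) • z) (e i) * fderiv ℝ T z (e i)) =
      r ^ 2 * (t * ∫ z, fderiv ℝ (fun y => fderiv ℝ v y (e i)) (x - (t * r) • z) (e i) * T z) := by
    intro i
    rw [integral_const_mul, e2]
    ring
  rw [Finset.sum_congr rfl fun i _ => e3 i, ← Finset.mul_sum, ← Finset.mul_sum]
  congr 2
  rw [← integral_finsetSum _ fun i _ => int_cs (hffi i) hT.continuous hT0]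
  congr 1
  funext z
  unfold lap
  rw [Finset.sum_mul]

theorem ident (hσ : Continuous σ) (hT : ContDiff ℝ 1 T)
    (hσ0 : ∀ z, 1 ≤ ‖z‖ → σ z = 0) (hT0 : ∀ z, 1 ≤ ‖z‖ → T z = 0)
    (hT' : ∀ z i, fderiv ℝ T z (e i) = -(z i * σ z)) (h1 : ∫ z, σ z = 1)
    (hv : ContDiff ℝ 2 v) (x : E n) (r : ℝ) :
    v x = (∫ z, v (x - r • z) * σ z) -
      r ^ 2 * ∫ t in (0 : ℝ)..1, t * ∫ z, lap v (x - (t * r) • z) * T z := by
  have hcont : Continuous (fun t : ℝ => r ^ 2 * (t * ∫ z, lap v (x - (t * r) • z) * T z)) := by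
    have h2 : Continuous (fun t : ℝ => ∫ z, lap v (x - (t * r) • z) * T z) := by
      have h3 : (fun t : ℝ => ∫ z, lap v (x - (t * r) • z) * T z) =
          fun t : ℝ => ∫ z in closedBall (0 : E n) 1, lap v (x - (t * r) • z) * T z := by
        funext t
        rw [int_ball hT0]
      rw [h3]
      refine continuous_parametric_integral_of_continuous
        (f := fun (t : ℝ) (z : E n) => lap v (x - (t * r) • z) * T z) ?_
        (isCompact_closedBall (0 : E n) 1)
      exact ((lap_cont hv).comp (aff_cont x r)).mul (hT.continuous.comp continuous_snd)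
    exact continuous_const.mul (continuous_id.mul h2)
  have hder : ∀ t ∈ uIcc (0 : ℝ) 1,
      HasDerivAt (fun t : ℝ => ∫ z in closedBall (0 : E n) 1, v (x - (t * r) • z) * σ z)
        (r ^ 2 * (t * ∫ z, lap v (x - (t * r) • z) * T z)) t := by
    intro t _
    rw [← der_val hv hσ hT hσ0 hT0 hT' x r t]
    exact der_int hv hσ x r t
  have h3 := intervalIntegral.integral_eq_sub_of_hasDerivAt hder (hcont.intervalIntegrable 0 1)
  rw [intervalIntegral.integral_const_mul] at h3
  rw [h3, int_ball hσ0, int_ball hσ0]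
  simp only [one_mul, zero_mul, zero_smul, sub_zero]
  rw [integral_const_mul, h1]
  ring

end Pool.Agent.N833.TI
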