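import Pool.Agent.N833.TI.Ker
import Pool.Agent.N833.TI.Idn

/-! TI/MV1 (helper833): mean value identity with an explicit kernel. -/

set_option autoImplicit false

namespace Pool.Agent.N833.TI

open MeasureTheory Metric Set Pool.Agent.N266.TI
open scoped ContDiff

theorem t_MV1 : MV1 := by
  intro n _
  obtain ⟨I, hI⟩ : ∃ I, I = ∫ z : E n, (p z) ^ 2 := ⟨_, rfl⟩
  have hI0 : 0 < I := by rw [hI]; exact p_int_pos
  obtain ⟨c0, hc0⟩ : ∃ c0, c0 = 1 / I := ⟨_, rfl⟩
  have hc : 0 < c0 := by rw [hc0]; positivity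
  have hσC : ContDiff ℝ 1 (fun z : E n => c0 * (p z) ^ 2) := contDiff_const.mul (p_C1 0)
  have hTC : ContDiff ℝ 1 (fun z : E n => c0 / 6 * (p z) ^ 3) := contDiff_const.mul (p_C1 1)
  have hσd : ∀ (z : E n) (i : Fin n), fderiv ℝ (fun z : E n => c0 * (p z) ^ 2) z (e i) =
      -(4 * c0 * p z * z i) := by
    intro z i
    have h1 := (p_fd 0 z).differentiableAt
    rw [fderiv_const_mul h1]
    show c0 * (fderiv ℝ (fun z : E n => (p z) ^ (0 + 2)) z (e i)) = _
    rw [p_fd_e]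
    push_cast
    ring
  have hTd : ∀ (z : E n) (i : Fin n), fderiv ℝ (fun z : E n => c0 / 6 * (p z) ^ 3) z (e i) =
      -(z i * (c0 * (p z) ^ 2)) := by
    intro z i
    have h1 := (p_fd 1 z).differentiableAt
    rw [fderiv_const_mul h1]
    show c0 / 6 * (fderiv ℝ (fun z : E n => (p z) ^ (1 + 2)) z (e i)) = _
    rw [p_fd_e]
    push_cast
    ring
  have hσ0 : ∀ z : E n, 1 ≤ ‖z‖ → c0 * (p z) ^ 2 = 0 := by
    intro z hz
    rw [p_zero hz]
    ring
  have hT0 : ∀ z : E n, 1 ≤ ‖z‖ → c0 / 6 * (p z) ^ 3 = 0 := by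
    intro z hz
    rw [p_zero hz]
    ring
  have h1 : ∫ z : E n, c0 * (p z) ^ 2 = 1 := by
    rw [integral_const_mul, ← hI, hc0]
    field_simp
  refine ⟨fun z => c0 * (p z) ^ 2, fun z => c0 / 6 * (p z) ^ 3, 8, c0 * (7 / 16) ^ 2, by norm_num,
    by positivity, hσC, hTC.continuous, fun z => by positivity, fun z => ?_,
    fun z hz => ⟨hσ0 z hz, hT0 z hz⟩, h1, fun z hz => ?_, fun z i => ?_, ?_⟩
  · have := p_nonneg z
    positivity
  · have h2 : 7 / 16 ≤ p z := by
      refine le_trans ?_ (le_max_left _ _)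
      have := norm_nonneg z
      nlinarith
    have h3 : (7 / 16 : ℝ) ^ 2 ≤ (p z) ^ 2 := pow_le_pow_left₀ (by norm_num) h2 2
    exact mul_le_mul_of_nonneg_left h3 hc.le
  · rw [hσd]
    rcases le_or_gt 1 ‖z‖ with hz | hz
    · rw [p_zero hz]
      simp only [mul_zero, zero_mul, neg_zero, abs_zero]
      positivity
    · have hn := norm_nonneg z
      have h2 : |z i| ≤ 1 := by
        have := PiLp.norm_apply_le z i
        rw [Real.norm_eq_abs] at this
        linarith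
      have h3 : p z ≤ 1 := by
        unfold p
        refine max_le ?_ (by norm_num)
        nlinarith
      have h4 : 3 / 4 ≤ p ((1 / 2 : ℝ) • z) := by
        unfold p
        refine le_trans ?_ (le_max_left _ _)
        rw [norm_smul, Real.norm_eq_abs, abs_of_pos (by norm_num : (0 : ℝ) < 1 / 2)]
        nlinarith
      have h5 := p_nonneg z
      rw [abs_neg, abs_mul, abs_of_nonneg (by positivity : (0 : ℝ) ≤ 4 * c0 * p z)]
      have h6 : (3 / 4 : ℝ) ^ 2 ≤ (p ((1 / 2 : ℝ) • z)) ^ 2 :=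
        pow_le_pow_left₀ (by norm_num) h4 2
      calc 4 * c0 * p z * |z i| ≤ 4 * c0 * 1 * 1 := by gcongr
        _ ≤ 8 * (c0 * (3 / 4 : ℝ) ^ 2) := by nlinarith
        _ ≤ 8 * (c0 * (p ((1 / 2 : ℝ) • z)) ^ 2) := by gcongr
  · intro v hv x r _
    exact ident hσC.continuous hTC hσ0 hT0 hTd h1 hv x r

end Pool.Agent.N833.TI
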