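import Pool.Agent.N266.TI.Stm

/-! TI/MV1 (helper833): the kernel. -/

set_option autoImplicit false

namespace Pool.Agent.N833.TI

open MeasureTheory Metric Set Pool.Agent.N266.TI
open scoped ContDiff

theorem hd (k : ℕ) (t : ℝ) : HasDerivAt (fun t : ℝ => (max t 0) ^ (k + 2))
    ((k + 2) * (max t 0) ^ (k + 1)) t := by
  rcases lt_trichotomy t 0 with h | h | h
  · have h1 : (fun t : ℝ => (max t 0) ^ (k + 2)) =ᶠ[nhds t] fun _ => (0 : ℝ) := by
      filter_upwards [Iio_mem_nhds h] with s hs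
      rw [max_eq_right (le_of_lt hs), zero_pow (by omega)]
    rw [max_eq_right h.le, zero_pow (by omega), mul_zero]
    exact (hasDerivAt_const t (0 : ℝ)).congr_of_eventuallyEq h1
  · subst h
    rw [max_self, zero_pow (by omega), mul_zero]
    have h1 : HasDerivWithinAt (fun t : ℝ => (max t 0) ^ (k + 2)) 0 (Iic 0) 0 := by
      refine (hasDerivWithinAt_const (0 : ℝ) (Iic 0) (0 : ℝ)).congr (fun s hs => ?_) ?_
      · rw [max_eq_right hs, zero_pow (by omega)]
      · rw [max_self, zero_pow (by omega)]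
    have h2 : HasDerivWithinAt (fun t : ℝ => (max t 0) ^ (k + 2)) 0 (Ici 0) 0 := by
      have h3 : HasDerivWithinAt (fun t : ℝ => t ^ (k + 2)) 0 (Ici 0) 0 := by
        have := (hasDerivAt_pow (k + 2) (0 : ℝ)).hasDerivWithinAt (s := Ici 0)
        have e : ((k + 2 : ℕ) : ℝ) * 0 ^ (k + 2 - 1) = 0 := by
          rw [zero_pow (by omega), mul_zero]
        rw [e] at this
        exact this
      refine h3.congr (fun s hs => ?_) ?_
      · rw [max_eq_left hs]
      · rw [max_self]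
    have h4 := h1.union h2
    rw [Iic_union_Ici, hasDerivWithinAt_univ] at h4
    exact h4
  · have h1 : (fun t : ℝ => (max t 0) ^ (k + 2)) =ᶠ[nhds t] fun t => t ^ (k + 2) := by
      filter_upwards [Ioi_mem_nhds h] with s hs
      rw [max_eq_left (le_of_lt hs)]
    rw [max_eq_left h.le]
    have h2 := (hasDerivAt_pow (k + 2) t).congr_of_eventuallyEq h1
    have e : ((k + 2 : ℕ) : ℝ) * t ^ (k + 2 - 1) = (k + 2) * t ^ (k + 1) := by
      push_cast
      rfl
    rw [e] at h2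
    exact h2

/-- `(1 - |z|²)_+` -/
noncomputable def p {n : ℕ} (z : E n) : ℝ := max (1 - ‖z‖ ^ 2) 0

theorem p_nonneg {n : ℕ} (z : E n) : 0 ≤ p z := le_max_right _ _

theorem p_cont {n : ℕ} : Continuous (p : E n → ℝ) := by
  unfold p
  fun_prop

theorem p_zero {n : ℕ} {z : E n} (hz : 1 ≤ ‖z‖) : p z = 0 := by
  unfold p
  apply max_eq_right
  nlinarith

theorem p_fd {n : ℕ} (k : ℕ) (z : E n) : HasFDerivAt (fun z : E n => (p z) ^ (k + 2))
    ((((k : ℝ) + 2) * (p z) ^ (k + 1)) • (-((2 : ℕ) • (innerSL ℝ z : E n →L[ℝ] ℝ)))) z := by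
  have h1 : HasFDerivAt (fun z : E n => 1 - ‖z‖ ^ 2)
      (-((2 : ℕ) • (innerSL ℝ z : E n →L[ℝ] ℝ))) z :=
    (hasStrictFDerivAt_norm_sq z).hasFDerivAt.const_sub 1
  exact (hd k (1 - ‖z‖ ^ 2)).comp_hasFDerivAt z h1

theorem p_fd_e {n : ℕ} (k : ℕ) (z : E n) (i : Fin n) :
    fderiv ℝ (fun z : E n => (p z) ^ (k + 2)) z (e i) = (k + 2) * (p z) ^ (k + 1) * (-2 * z i) := by
  rw [(p_fd k z).fderiv]
  simp [EuclideanSpace.inner_single_right]

theorem p_fd_cont {n : ℕ} (k : ℕ) :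
    Continuous (fun z : E n => fderiv ℝ (fun z : E n => (p z) ^ (k + 2)) z) := by
  have h : (fun z : E n => fderiv ℝ (fun z : E n => (p z) ^ (k + 2)) z) =
      fun z => (((k : ℝ) + 2) * (p z) ^ (k + 1)) • (-((2 : ℕ) • (innerSL ℝ z : E n →L[ℝ] ℝ))) := by
    funext z
    exact (p_fd k z).fderiv
  rw [h]
  have := p_cont (n := n)
  have h2 : Continuous (fun z : E n => (innerSL ℝ z : E n →L[ℝ] ℝ)) :=
    (innerSL ℝ : E n →L⋆[ℝ] E n →L[ℝ] ℝ).continuous
  fun_prop

theorem p_C1 {n : ℕ} (k : ℕ) : ContDiff ℝ 1 (fun z : E n => (p z) ^ (k + 2)) := by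
  rw [contDiff_one_iff_fderiv]
  exact ⟨fun z => (p_fd k z).differentiableAt, p_fd_cont k⟩

theorem p_supp {n : ℕ} (k : ℕ) : HasCompactSupport (fun z : E n => (p z) ^ (k + 1)) := by
  refine HasCompactSupport.intro (isCompact_closedBall (0 : E n) 1) fun z hz => ?_
  rw [mem_closedBall_zero_iff, not_le] at hz
  rw [p_zero hz.le, zero_pow (by omega)]

theorem p_int_pos {n : ℕ} : 0 < ∫ z : E n, (p z) ^ 2 := by
  refine Continuous.integral_pos_of_hasCompactSupport_nonneg_nonzero (x := (0 : E n))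
    (p_cont.pow 2) (p_supp 1) (fun z => by positivity) ?_
  unfold p
  simp

end Pool.Agent.N833.TI
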